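import Pool.Agent.Helper70.TW.Goals

/-!
# Project TW, packets QH and QS
-/

namespace Pool.Agent.Helper84.TW

open MvPolynomial Pool.Agent.Helper70.TW

universe u

theorem coeff_mulC {σ : Type} {A : Type u} [CommSemiring A] (m : σ →₀ ℕ) (a : A)
    (p : MvPolynomial σ A) : coeff m (p * C a) = coeff m p * a := by
  rw [mul_comm, coeff_C_mul, mul_comm]

section Mh

variable {ι κ : Type} {A : Type u} [CommSemiring A] [Fintype ι] [DecidableEq κ] {b : ι → κ}

theorem mh_zero {α β : κ → ℕ} : Mh b α β (0 : MvPolynomial (ι ⊕ ι) A) := by
  intro d hd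
  simp at hd

theorem mh_add {α β : κ → ℕ} {f g : MvPolynomial (ι ⊕ ι) A} (hf : Mh b α β f)
    (hg : Mh b α β g) : Mh b α β (f + g) := by
  classical
  intro d hd
  rcases Finset.mem_union.1 (support_add hd) with h | h
  · exact hf d h
  · exact hg d h

theorem mh_sum {α β : κ → ℕ} {τ : Type} (s : Finset τ) (f : τ → MvPolynomial (ι ⊕ ι) A)
    (hf : ∀ t ∈ s, Mh b α β (f t)) : Mh b α β (∑ t ∈ s, f t) := by
  classical
  induction s using Finset.induction_on with
  | empty => simpa using mh_zero
  | insert a s ha ih =>
    rw [Finset.sum_insert ha]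
    exact mh_add (hf a (Finset.mem_insert_self a s))
      (ih fun t ht => hf t (Finset.mem_insert_of_mem ht))

theorem mh_mul_C {α β : κ → ℕ} {f : MvPolynomial (ι ⊕ ι) A} (hf : Mh b α β f) (a : A) :
    Mh b α β (f * C a) := by
  intro d hd
  refine hf d ?_
  rw [mem_support_iff] at hd ⊢
  intro h
  apply hd
  rw [coeff_mulC, h, zero_mul]

theorem mh_mul_inl [DecidableEq ι] {α β α' : κ → ℕ} {f : MvPolynomial (ι ⊕ ι) A}
    (hf : Mh b α β f) (i : ι) (h' : ∀ k, α' k = α k + if b i = k then 1 else 0) :
    Mh b α' β (f * X (Sum.inl i)) := by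
  classical
  intro d hd k
  rw [mem_support_iff, coeff_mul_X'] at hd
  split_ifs at hd with hs
  · have h1 := hf _ (mem_support_iff.2 hd) k
    rw [h' k]
    have hd0 : 1 ≤ d (Sum.inl i) := Nat.one_le_iff_ne_zero.2 (Finsupp.mem_support_iff.1 hs)
    constructor
    · rw [← h1.1]
      have : ∀ j, d (Sum.inl j) = (d - Finsupp.single (Sum.inl i) 1 : (ι ⊕ ι) →₀ ℕ) (Sum.inl j) +
          if j = i then 1 else 0 := by
        intro j
        rw [Finsupp.tsub_apply, Finsupp.single_apply]
        by_cases hj : i = j
        · subst hj
          simp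
          omega
        · have hj' : ¬ (j = i) := fun h => hj h.symm
          simp [hj, hj']
      rw [Finset.sum_congr rfl fun j _ => this j, Finset.sum_add_distrib, Finset.sum_ite_eq']
      simp
    · rw [← h1.2]
      apply Finset.sum_congr rfl
      intro j _
      rw [Finsupp.tsub_apply, Finsupp.single_apply]
      simp
  · exact absurd rfl hd

theorem mh_mul_inr [DecidableEq ι] {α β β' : κ → ℕ} {f : MvPolynomial (ι ⊕ ι) A}
    (hf : Mh b α β f) (i : ι) (h' : ∀ k, β' k = β k + if b i = k then 1 else 0) :
    Mh b α β' (f * X (Sum.inr i)) := by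
  classical
  intro d hd k
  rw [mem_support_iff, coeff_mul_X'] at hd
  split_ifs at hd with hs
  · have h1 := hf _ (mem_support_iff.2 hd) k
    rw [h' k]
    have hd0 : 1 ≤ d (Sum.inr i) := Nat.one_le_iff_ne_zero.2 (Finsupp.mem_support_iff.1 hs)
    constructor
    · rw [← h1.1]
      apply Finset.sum_congr rfl
      intro j _
      rw [Finsupp.tsub_apply, Finsupp.single_apply]
      simp
    · rw [← h1.2]
      have : ∀ j, d (Sum.inr j) = (d - Finsupp.single (Sum.inr i) 1 : (ι ⊕ ι) →₀ ℕ) (Sum.inr j) +
          if j = i then 1 else 0 := by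
        intro j
        rw [Finsupp.tsub_apply, Finsupp.single_apply]
        by_cases hj : i = j
        · subst hj
          simp
          omega
        · have hj' : ¬ (j = i) := fun h => hj h.symm
          simp [hj, hj']
      rw [Finset.sum_congr rfl fun j _ => this j, Finset.sum_add_distrib, Finset.sum_ite_eq']
      simp
  · exact absurd rfl hd

end Mh

theorem mh_congr {ι κ : Type} {A : Type u} [CommSemiring A] [Fintype ι] [DecidableEq κ]
    {b : ι → κ} {α β α' β' : κ → ℕ} {f : MvPolynomial (ι ⊕ ι) A} (hf : Mh b α β f)
    (h : α = α') (h' : β = β') : Mh b α' β' f := by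
  subst h h'
  exact hf

theorem qh : Pool.Agent.Helper70.TW.QH.{u} := by
  intro K _ n p v f
  classical
  induction f using MvPolynomial.induction_on with
  | C a =>
    intro m
    have h0 : expP p v (C a : MvPolynomial (Fin n) K) = C (C (algebraMap K (GF K) a)) := by
      simp [expP]
    rw [cf, h0, coeff_C]
    split_ifs with h
    · have hm : ∀ t, m t = 0 := by
        intro t
        have := congrArg (fun g : (Sc p) →₀ ℕ => g t) h
        simpa using this.symm
      intro d hd k
      have hd0 : d = 0 := by
        by_contra hne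
        rw [mem_support_iff, coeff_C, if_neg (fun h => hne h.symm)] at hd
        exact hd rfl
      subst hd0
      simp [hm]
    · exact mh_zero
  | add f g hf hg =>
    intro m
    have h0 : cf p v (f + g) m = cf p v f m + cf p v g m := by
      simp only [cf, expP, eval₂_add, coeff_add]
    rw [h0]
    exact mh_add (hf m) (hg m)
  | mul_X f i hf =>
    intro m
    have h0 : cf p v (f * X i) m = (∑ k : Fin p,
        ((if some (Sum.inl k) ∈ (Finsupp.equivFunOnFinite.symm m : (Sc p) →₀ ℕ).support then
          coeff (Finsupp.equivFunOnFinite.symm m - Finsupp.single (some (Sum.inl k)) 1)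
            (expP p v f) else 0) * X (Sum.inl (i, k)) +
        (if some (Sum.inr k) ∈ (Finsupp.equivFunOnFinite.symm m : (Sc p) →₀ ℕ).support then
          coeff (Finsupp.equivFunOnFinite.symm m - Finsupp.single (some (Sum.inr k)) 1)
            (expP p v f) else 0) * X (Sum.inr (i, k)))) +
        (if none ∈ (Finsupp.equivFunOnFinite.symm m : (Sc p) →₀ ℕ).support then
          coeff (Finsupp.equivFunOnFinite.symm m - Finsupp.single none 1)
            (expP p v f) else 0) * C (algebraMap K (GF K) (v i)) := by
      have h1 : expP p v (f * X i) = expP p v f * ((∑ k : Fin p, (X (some (Sum.inl k)) * C (X (Sum.inl (i, k))) +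
          X (some (Sum.inr k)) * C (X (Sum.inr (i, k))))) + X none * C (C (algebraMap K (GF K) (v i)))) := by
        simp only [expP, eval₂_mul, eval₂_X]
      rw [cf, h1, mul_add, Finset.mul_sum, coeff_add, coeff_sum]
      congr 1
      · apply Finset.sum_congr rfl
        intro k _
        rw [mul_add, coeff_add, ← mul_assoc, ← mul_assoc, coeff_mulC, coeff_mulC,
          coeff_mul_X', coeff_mul_X']
      · rw [← mul_assoc, coeff_mulC, coeff_mul_X']
    have key : ∀ t : Sc p, t ∈ (Finsupp.equivFunOnFinite.symm m : (Sc p) →₀ ℕ).support →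
        Mh (Prod.snd : Fin n × Fin p → Fin p)
          (fun k => m (some (Sum.inl k)) - if t = some (Sum.inl k) then 1 else 0)
          (fun k => m (some (Sum.inr k)) - if t = some (Sum.inr k) then 1 else 0)
          (coeff (Finsupp.equivFunOnFinite.symm m - Finsupp.single t 1) (expP p v f)) := by
      intro t ht
      have h2 := hf (fun x => m x - if t = x then 1 else 0)
      have h3 : (Finsupp.equivFunOnFinite.symm (fun x => m x - if t = x then 1 else 0) :
          (Sc p) →₀ ℕ) = Finsupp.equivFunOnFinite.symm m - Finsupp.single t 1 := by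
        ext x
        rw [Finsupp.tsub_apply, Finsupp.single_apply]
        simp
      rw [cf, h3] at h2
      exact h2
    have hne : ∀ t : Sc p, t ∈ (Finsupp.equivFunOnFinite.symm m : (Sc p) →₀ ℕ).support →
        1 ≤ m t := by
      intro t ht
      have := Finsupp.mem_support_iff.1 ht
      simp only [Finsupp.equivFunOnFinite_symm_apply_apply] at this
      omega
    rw [h0]
    refine mh_add (mh_sum _ _ fun k _ => mh_add ?_ ?_) ?_
    · split_ifs with ht
      · refine mh_congr (mh_mul_inl (key _ ht) (i, k) (α' := fun k => m (some (Sum.inl k))) ?_)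
          rfl ?_
        · intro k'
          have h1 := hne _ ht
          by_cases hk : k = k'
          · subst hk
            simp
            omega
          · simp [hk]
        · funext k'
          simp
      · rw [zero_mul]
        exact mh_zero
    · split_ifs with ht
      · refine mh_congr (mh_mul_inr (key _ ht) (i, k) (β' := fun k => m (some (Sum.inr k))) ?_)
          ?_ rfl
        · intro k'
          have h1 := hne _ ht
          by_cases hk : k = k'
          · subst hk
            simp
            omega
          · simp [hk]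
        · funext k'
          simp
      · rw [zero_mul]
        exact mh_zero
    · split_ifs with ht
      · refine mh_congr (mh_mul_C (key _ ht) _) ?_ ?_
        · funext k'
          simp
        · funext k'
          simp
      · rw [zero_mul]
        exact mh_zero

/-- The swap of the two kinds of scalars. -/
def sw (p : ℕ) : Sc p ≃ Sc p := Equiv.optionCongr (Equiv.sumComm (Fin p) (Fin p))

theorem star_alg {K : Type u} [Field K] (a : K) :
    star (algebraMap K (GF K) a) = algebraMap K (GF K) a := by
  ext <;> simp

theorem qs : Pool.Agent.Helper70.TW.QS.{u} := by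
  intro K _ n p v f m z
  classical
  let Φ : MvPolynomial ((Fin n × Fin p) ⊕ (Fin n × Fin p)) (GF K) →+* GF K :=
    eval (Sum.elim z (fun i => star (z i)))
  let P : MvPolynomial (Sc p) (GF K) := map Φ (expP p v f)
  have hP : ∀ m' : Sc p → ℕ, evs z (cf p v f m') =
      coeff (Finsupp.equivFunOnFinite.symm m') P := by
    intro m'
    simp only [P, coeff_map, evs, cf, Φ]
  have hsym : map (starRingEnd (GF K)) P = rename (sw p) P := by
    have h1 : ((map (starRingEnd (GF K)) : MvPolynomial (Sc p) (GF K) →+* _).comp
        (map Φ)).comp (eval₂Hom ((C : MvPolynomial ((Fin n × Fin p) ⊕ (Fin n × Fin p)) (GF K) →+* _).comp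
      ((C : GF K →+* _).comp (algebraMap K (GF K))))
    (fun i => (∑ k : Fin p, (X (some (Sum.inl k)) * C (X (Sum.inl (i, k))) +
      X (some (Sum.inr k)) * C (X (Sum.inr (i, k))))) + X none * C (C (algebraMap K (GF K) (v i))))) =
      (((rename (sw p) : MvPolynomial (Sc p) (GF K) →ₐ[GF K] _) : MvPolynomial (Sc p) (GF K) →+* _).comp
        (map Φ)).comp (eval₂Hom ((C : MvPolynomial ((Fin n × Fin p) ⊕ (Fin n × Fin p)) (GF K) →+* _).comp
      ((C : GF K →+* _).comp (algebraMap K (GF K))))
    (fun i => (∑ k : Fin p, (X (some (Sum.inl k)) * C (X (Sum.inl (i, k))) +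
      X (some (Sum.inr k)) * C (X (Sum.inr (i, k))))) + X none * C (C (algebraMap K (GF K) (v i))))) := by
      apply MvPolynomial.ringHom_ext
      · intro a
        simp [Φ, starRingEnd_apply, star_alg]
      · intro i
        simp only [Φ, sw, starRingEnd_apply, RingHom.coe_comp, Function.comp_apply,
          coe_eval₂Hom, eval₂_X, map_add, map_sum, map_mul, map_X, map_C, eval_X, eval_C,
          Sum.elim_inl, Sum.elim_inr, star_star, star_alg, RingHom.coe_coe, rename_X, rename_C,
          Equiv.optionCongr_apply, Option.map_none, Option.map_some, Equiv.sumComm_apply,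
          Sum.swap_inl, Sum.swap_inr]
        congr 1
        apply Finset.sum_congr rfl
        intro k _
        ring
    exact DFunLike.congr_fun h1 f
  rw [hP, hP]
  have h3 := congrArg (coeff (Finsupp.equivFunOnFinite.symm m)) hsym
  rw [coeff_map] at h3
  rw [starRingEnd_apply] at h3
  rw [h3]
  have h4 : (Finsupp.equivFunOnFinite.symm m : (Sc p) →₀ ℕ) =
      Finsupp.mapDomain (sw p) (Finsupp.equivFunOnFinite.symm (swp m)) := by
    ext t
    obtain ⟨t, rfl⟩ := (sw p).surjective t
    rw [Finsupp.mapDomain_apply (sw p).injective]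
    simp only [Finsupp.equivFunOnFinite_symm_apply_apply]
    rcases t with _ | (k | k) <;> rfl
  rw [h4, coeff_rename_mapDomain _ (sw p).injective]

end Pool.Agent.Helper84.TW
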