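import Pool.Agent.Helper83.TW.Goals2

/-! Packet TW-GPer: all periodic Euler-Lagrange paths of the same type have the same action. -/

set_option autoImplicit false

namespace Pool.Agent.Helper84.TW

open Complex Set Pool.Agent.Helper83.TW

theorem mem_DG_real {ρ x d : ℝ} (hρ : 0 < ρ) (h1 : 1/4 < d) (h2 : d < 11/4) :
    ((x:ℂ), (d:ℂ)) ∈ DG (ρ/2) := by
  refine ⟨?_, ?_, ?_, ?_⟩
  · simp; linarith
  · simpa using h1
  · simpa using h2
  · simp; linarith

theorem mem_WG_real {ρ x d : ℝ} (hρ : 0 < ρ) (h1 : 1/16 < d) (h2 : d < 47/16) :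
    ((x:ℂ), (d:ℂ)) ∈ WG ρ := by
  refine ⟨?_, ?_, ?_, ?_⟩
  · simp; linarith
  · simpa using h1
  · simpa using h2
  · simp; linarith

theorem real_of_cj {z : ℂ} (h : z = cj z) : ((z.re : ℝ) : ℂ) = z := by
  have h1 : (starRingEnd ℂ) z = z := h.symm
  exact Complex.conj_eq_iff_re.mp h1

/-- one admissible path lies on a leaf -/
theorem path_leaf (hO : GOsc) {P Q : ℂ × ℂ → ℂ} {ρ η : ℝ} (hNI : NI P Q ρ η)
    {ι : Type} {U : ι → ℝ → ℝ} (hU : Leaves P Q U) {y g : ℂ × ℂ → ℂ}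
    (hG : Gen P Q y g 0 ρ η) {m : ℕ} (hm : 1 ≤ m) {x : ℕ → ℝ}
    (hx : ∀ i, i < m → 1/2 < x (i+1) - x i ∧ x (i+1) - x i < 5/2)
    (hEL : ∀ i, i + 1 < m → EL g (x i) (x (i+1)) (x (i+2))) :
    ∃ i : ι, (∀ t, 2/5 < U i t ∧ U i t < 13/5) ∧
      ∀ k, k < m → (Gm P Q (x k) (U i (x k))).1 = x (k+1) := by
  have hρ := hNI.hρ0
  have hη := hNI.hη0
  have hηs : η ≤ 1/1000 := by
    have h1 := hNI.hη
    have h2 := hNI.hρ1
    norm_num at h1
    linarith
  set yk : ℕ → ℂ := fun k => y ((x k : ℂ), ((x (k+1) - x k : ℝ) : ℂ)) with hyk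
  set Y : ℕ → ℝ := fun k => (x (k+1) - x k) + (yk k).re with hY
  have hmem : ∀ k, k < m → ((x k : ℂ), ((x (k+1) - x k : ℝ) : ℂ)) ∈ DG (ρ/2) := fun k hk =>
    mem_DG_real hρ (by linarith [(hx k hk).1]) (by linarith [(hx k hk).2])
  have hyreal : ∀ k, k < m → (((yk k).re : ℝ) : ℂ) = yk k := by
    intro k hk
    apply real_of_cj
    have := hG.yH.sym _ (hmem k hk)
    simp only [cj, Complex.conj_ofReal] at this
    exact this
  have hyb : ∀ k, k < m → |(yk k).re| ≤ η := fun k hk =>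
    (Complex.abs_re_le_norm _).trans (hG.yb _ (hmem k hk))
  have hYb : ∀ k, k < m → 1/2 - η < Y k ∧ Y k < 5/2 + η := by
    intro k hk
    have h1 := abs_le.mp (hyb k hk)
    have h2 := hx k hk
    constructor
    · simp only [hY]; linarith [h1.1, h2.1]
    · simp only [hY]; linarith [h1.2, h2.2]
  have hYc : ∀ k, k < m → (((x (k+1) - x k : ℝ) : ℂ)) + yk k = ((Y k : ℝ) : ℂ) := by
    intro k hk
    have := hyreal k hk
    simp only [hY]
    push_cast
    rw [this]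
  have hGm1 : ∀ k, k < m → (Gm P Q (x k) (Y k)).1 = x (k+1) := by
    intro k hk
    have h1 := hG.ye _ (hmem k hk)
    simp only at h1
    have h2 : ((x k : ℂ), (((x (k+1) - x k : ℝ) : ℂ)) + y ((x k : ℂ), ((x (k+1) - x k : ℝ) : ℂ)))
        = ((x k : ℂ), ((Y k : ℝ) : ℂ)) := by
      rw [← hYc k hk]
    rw [h2] at h1
    have h3 : (P ((x k : ℂ), ((Y k : ℝ) : ℂ))).re = - (yk k).re := by
      have := congrArg Complex.re h1
      simp only [Complex.add_re, Complex.zero_re] at this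
      simp only [hyk]
      linarith
    simp only [Gm, h3]
    simp only [hY]
    ring
  have hGm2 : ∀ k, k + 1 < m → (Gm P Q (x k) (Y k)).2 = Y (k+1) := by
    intro k hk
    have hk0 : k < m := by omega
    have h0 := hEL k hk
    unfold EL at h0
    rw [hG.g2 _ (hmem k hk0), hG.g2 _ (hmem (k+1) hk), hG.g1 _ (hmem (k+1) hk)] at h0
    simp only at h0
    have h1 : (((x (k+1) - x k : ℝ) : ℂ)) + (yk k + Q ((x k : ℂ), ((Y k : ℝ) : ℂ)))
        = ((x (k+1+1) - x (k+1) : ℝ) : ℂ) + yk (k+1) := by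
      rw [← hYc k hk0]
      linear_combination h0
    have h2 := congrArg Complex.re h1
    simp only [Complex.add_re, Complex.ofReal_re] at h2
    simp only [Gm, hY]
    linarith
  have h0m : 0 < m := by omega
  obtain ⟨i, hi⟩ := hU.cover (x 0) (Y 0) (by linarith [(hYb 0 h0m).1]) (by linarith [(hYb 0 h0m).2])
  obtain ⟨hosc, -⟩ := hO P Q ρ η hNI ι U hU
  have hind : ∀ k, k < m → U i (x k) = Y k := by
    intro k
    induction k with
    | zero => intro _; exact hi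
    | succ k ih =>
      intro hk
      have hk0 : k < m := by omega
      have h1 := hU.inv i (x k)
      rw [ih hk0, hGm2 k hk, hGm1 k hk0] at h1
      exact h1.symm
  refine ⟨i, ?_, ?_⟩
  · intro t
    have h1 := abs_le.mp (hosc i t (x 0))
    rw [hi] at h1
    constructor
    · linarith [h1.1, (hYb 0 h0m).1]
    · linarith [h1.2, (hYb 0 h0m).2]
  · intro k hk
    rw [hind k hk]
    exact hGm1 k hk

theorem ell_im {P Q : ℂ × ℂ → ℂ} {ρ η : ℝ} (hNI : NI P Q ρ η) {y g : ℂ × ℂ → ℂ}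
    (hG : Gen P Q y g 0 ρ η) {x d : ℝ} (h1 : 1/4 < d) (h2 : d < 11/4) :
    (ell g (x:ℂ) (d:ℂ)).im = 0 := by
  have h := hG.gs _ (mem_DG_real (x := x) hNI.hρ0 h1 h2)
  simp only [cj, Complex.conj_ofReal] at h
  have h3 := real_of_cj h
  unfold ell
  rw [← h3]
  have : ((d:ℂ) ^ 2 / 2 + (((g ((x:ℂ), (d:ℂ))).re : ℝ) : ℂ))
      = ((d ^ 2 / 2 + (g ((x:ℂ), (d:ℂ))).re : ℝ) : ℂ) := by
    push_cast; ring
  rw [this, Complex.ofReal_im]

/-- integral over an integer number of periods -/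
theorem int_period {f : ℝ → ℝ} (hc : Continuous f) (hp : ∀ x, f (x + 1) = f x) (t : ℝ) (j : ℤ) :
    ∫ s in t..(t + j), f s = j * ∫ s in (0:ℝ)..1, f s := by
  have hper : Function.Periodic f 1 := hp
  have h := hper.intervalIntegral_add_zsmul_eq j t (fun a b => hc.intervalIntegrable a b)
  have h2 := hper.intervalIntegral_add_eq t 0
  rw [zero_add] at h2
  rw [h2] at h
  simpa [zsmul_eq_mul] using h

theorem GPer_of (hO : GOsc) (hC : GCal) : GPer := by
  intro P Q ρ η hNI ι U hU y g hG m j hm _ _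
  have hsum : ∀ (i : ι) (x : ℕ → ℝ), x m = x 0 + j →
      ∑ k ∈ Finset.range m, (∫ t in (x k)..(x (k+1)), U i t) = j * ∫ s in (0:ℝ)..1, U i s := by
    intro i x hxm
    rw [intervalIntegral.sum_integral_adjacent_intervals
      (fun k _ => (hU.cont i).intervalIntegrable _ _), hxm]
    exact int_period (hU.cont i) (hU.per i) _ _
  have key : ∀ x x' : ℕ → ℝ,
      (∀ i, i < m → 1/2 < x (i+1) - x i ∧ x (i+1) - x i < 5/2) →
      x m = x 0 + j →
      (∀ i, i + 1 < m → EL g (x i) (x (i+1)) (x (i+2))) →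
      (∀ i, i < m → 1/2 < x' (i+1) - x' i ∧ x' (i+1) - x' i < 5/2) →
      x' m = x' 0 + j →
      (∑ i ∈ Finset.range m, ell g (x i) ((x (i+1) - x i : ℝ) : ℂ)).re
        ≤ (∑ i ∈ Finset.range m, ell g (x' i) ((x' (i+1) - x' i : ℝ) : ℂ)).re := by
    intro x x' hx hxm hEL hx' hxm'
    obtain ⟨i, hi, hk⟩ := path_leaf hO hNI hU hG hm hx hEL
    obtain ⟨φ, hφ1, hφ2⟩ := hC P Q ρ η hNI ι U hU y g 0 hG i hi
    have e1 : (∑ k ∈ Finset.range m, ell g (x k) ((x (k+1) - x k : ℝ) : ℂ)).re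
        = m * φ + j * ∫ s in (0:ℝ)..1, U i s := by
      rw [Complex.re_sum, ← hsum i x hxm]
      have : ∀ k ∈ Finset.range m, (ell g (x k) ((x (k+1) - x k : ℝ) : ℂ)).re
          = φ + ∫ t in (x k)..(x (k+1)), U i t := by
        intro k hkm
        have h1 := hφ2 (x k)
        rw [hk k (Finset.mem_range.mp hkm)] at h1
        linarith
      rw [Finset.sum_congr rfl this, Finset.sum_add_distrib]
      simp
    have e2 : m * φ + j * ∫ s in (0:ℝ)..1, U i s
        ≤ (∑ k ∈ Finset.range m, ell g (x' k) ((x' (k+1) - x' k : ℝ) : ℂ)).re := by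
      rw [Complex.re_sum, ← hsum i x' hxm']
      have : ∀ k ∈ Finset.range m, φ + ∫ t in (x' k)..(x' (k+1)), U i t
          ≤ (ell g (x' k) ((x' (k+1) - x' k : ℝ) : ℂ)).re := by
        intro k hkm
        have hb := hx' k (Finset.mem_range.mp hkm)
        have h1 := hφ1 (x' k) (x' (k+1) - x' k) (by linarith [hb.1]) (by linarith [hb.2])
        rw [add_sub_cancel] at h1
        linarith
      calc m * φ + ∑ k ∈ Finset.range m, (∫ t in (x' k)..(x' (k+1)), U i t)
          = ∑ k ∈ Finset.range m, (φ + ∫ t in (x' k)..(x' (k+1)), U i t) := by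
            rw [Finset.sum_add_distrib]; simp
        _ ≤ _ := Finset.sum_le_sum this
    linarith
  have him : ∀ x : ℕ → ℝ,
      (∀ i, i < m → 1/2 < x (i+1) - x i ∧ x (i+1) - x i < 5/2) →
      (∑ i ∈ Finset.range m, ell g (x i) ((x (i+1) - x i : ℝ) : ℂ)).im = 0 := by
    intro x hx
    rw [Complex.im_sum]
    apply Finset.sum_eq_zero
    intro k hkm
    have hb := hx k (Finset.mem_range.mp hkm)
    exact ell_im hNI hG (by linarith [hb.1]) (by linarith [hb.2])
  by_cases hex : ∃ x : ℕ → ℝ,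
      (∀ i, i < m → 1/2 < x (i+1) - x i ∧ x (i+1) - x i < 5/2) ∧
      x m = x 0 + j ∧
      (∀ i, i + 1 < m → EL g (x i) (x (i+1)) (x (i+2)))
  · obtain ⟨x, hx, hxm, hEL⟩ := hex
    refine ⟨∑ i ∈ Finset.range m, ell g (x i) ((x (i+1) - x i : ℝ) : ℂ), ?_⟩
    intro x' hx' hxm' hEL'
    apply Complex.ext
    · exact le_antisymm (key x' x hx' hxm' hEL' hx hxm) (key x x' hx hxm hEL hx' hxm')
    · rw [him x hx, him x' hx']
  · refine ⟨0, ?_⟩
    intro x hx hxm hEL
    exact absurd ⟨x, hx, hxm, hEL⟩ hex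

end Pool.Agent.Helper84.TW
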